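import Pool.Agent.Work.MP_9dede5_an.All

/-!
# Symmetry of norming approximate orthogonality characterises Hilbert spaces

Let `c = 1 - δ`, `e = ε / (1 - δ)`, so `0 < e < c < 1`. Sketch of the proof (details in the imported
files, all of them elementary).

1. By Hahn-Banach everything can be done in subspaces of finite dimension at least three. For a
unit vector `w` and a functional `f` of norm one with `f w = 1` call unit vectors `x`, `y` aligned
if `f x = c` and `y = e w + L (x - c w)` with `L > 0`. Symmetry gives: no functional `g` of norm at
most one has `|g y| ≥ c` and `|g x| < e`; but some `g` has `g y = c` and `|g x| = e`, and all these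
have the same value `g x = e / ω`, where `|ω| = 1`.
2. Separation arguments show that the functionals `g` agree on `ker f` with positive multiples of
norming functionals of `y`, and (after multiplication by `ω`) of `x`. At a point where the stretch
`1 / L` is maximal along a complex affine line of the slice `f = e`, a first order variation shows
that `ω` is real. As `ω` and `L` are constant on faces, `ω = 1` always (here dimension three is
used). This removes the phase, and then smoothness and strict convexity follow.
3. The number `ψ_x y`, for `ψ_x` the norming functional of `x`, is the same number `l x` for all `y`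
aligned with `x`; alignment is symmetric, and hence `ψ_x y = l x` implies `ψ_y x = l y`.
4. From this property the sections `ψ_x = l x` of the unit sphere in two-dimensional subspaces are
round circles, `l` is constant on them, and near every point of a two-dimensional subspace the
square of the norm is a Hermitian form. So `s ↦ ‖x + s y‖ ^ 2` is a quadratic polynomial, the
parallelogram law holds, and the Jordan-von Neumann theorem applies.
-/

universe u

namespace Pool.Agent.Results.MP_9dede5_an.SymmetricImpliesHilbert

/-- `(δ, ε)`-norming approximate orthogonality of `x` and `y`: there is a nonzero continuous linear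
functional `f` with `|f x| ≥ (1 - δ) ‖f‖ ‖x‖` and `|f y| ≤ (ε / (1 - δ)) ‖f‖ ‖y‖`. -/
def NormingApproxOrth {X : Type u} [NormedAddCommGroup X] [NormedSpace ℂ X] (δ ε : ℝ)
    (x y : X) : Prop :=
  ∃ f : X →L[ℂ] ℂ, f ≠ 0 ∧ (1 - δ) * ‖f‖ * ‖x‖ ≤ ‖f x‖ ∧ ‖f y‖ ≤ ε / (1 - δ) * ‖f‖ * ‖y‖

/-- If `(δ, ε)`-norming approximate orthogonality is symmetric on a complex normed space of
dimension at least three, for some `0 < δ < 1` and `0 < ε < (1 - δ) ^ 2`, then the norm comes from
an inner product `s`. -/
theorem result (X : Type u) [NormedAddCommGroup X] [NormedSpace ℂ X]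
    (hdim : 3 ≤ Module.rank ℂ X) (δ ε : ℝ) (hδ : 0 < δ) (hδ1 : δ < 1) (hε : 0 < ε)
    (hεδ : ε < (1 - δ) ^ 2)
    (hsym : ∀ x y : X, NormingApproxOrth δ ε x y → NormingApproxOrth δ ε y x) :
    ∃ s : X → X → ℂ,
      (∀ x y z : X, s (x + y) z = s x z + s y z) ∧
      (∀ (a : ℂ) (x y : X), s (a • x) y = a * s x y) ∧
      (∀ x y : X, s y x = (starRingEnd ℂ) (s x y)) ∧
      (∀ x : X, s x x = ((‖x‖ ^ 2 : ℝ) : ℂ)) :=
  NAO.main X δ ε hδ hδ1 hε hεδ hdim hsym

end Pool.Agent.Results.MP_9dede5_an.SymmetricImpliesHilbert
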